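import Pool.Agent.T9h65.EX.Sone
import Pool.Agent.T9h94.EX.Val
import Pool.Agent.T9h41.EX.Add
import Pool.Agent.T9h41.EX.Infr

/-! A three-parameter family of normal extremals. -/

set_option autoImplicit false

open Complex Filter Topology Metric Set
open Pool.Agent.Helper797.Bs Pool.Agent.K7.H38.MD Pool.Agent.T9h72.EX

namespace Pool.Agent.T9h65.EX

/-- the linear part -/
noncomputable def lin (α α' β : ℝ) (p : ℝ × ℝ) : ℝ :=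
  α * ((p.1 + p.2) / √2) - α' * ((p.1 - p.2) / √2) + β

/-- the imaginary part -/
noncomputable def gi (α α' β : ℝ) (p : ℝ × ℝ) : ℝ :=
  lin α α' β p * (Real.sin √(p.1 ^ 2 + p.2 ^ 2 + (Real.pi / 2) ^ 2) /
    √(p.1 ^ 2 + p.2 ^ 2 + (Real.pi / 2) ^ 2))

/-- the family -/
noncomputable def fa (α α' β : ℝ) (p : ℝ × ℝ) : ℂ := fs p + I * ((gi α α' β p : ℝ) : ℂ)

lemma s2 : √2 * √2 = (2 : ℝ) := Real.mul_self_sqrt (by norm_num)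

lemma s2_pos : 0 < √(2 : ℝ) := Real.sqrt_pos.2 (by norm_num)

lemma lin_sq {α α' β : ℝ} (h : α ^ 2 + α' ^ 2 + (2 * β / Real.pi) ^ 2 ≤ 1) (p : ℝ × ℝ) :
    lin α α' β p ^ 2 ≤ p.1 ^ 2 + p.2 ^ 2 + (Real.pi / 2) ^ 2 := by
  unfold lin
  set u := (p.1 + p.2) / √2 with hu
  set v := (p.1 - p.2) / √2 with hv
  have huv : u ^ 2 + v ^ 2 = p.1 ^ 2 + p.2 ^ 2 := by
    rw [hu, hv, div_pow, div_pow, Real.sq_sqrt (by norm_num : (0:ℝ) ≤ 2)]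
    ring
  have hpi := Real.pi_pos
  set b := 2 * β / Real.pi with hb
  set c := Real.pi / 2 with hc
  have hbc : β = b * c := by
    rw [hb, hc]
    field_simp
  rw [← huv, hbc]
  have key : (α * u - α' * v + b * c) ^ 2 ≤ (α ^ 2 + α' ^ 2 + b ^ 2) * (u ^ 2 + v ^ 2 + c ^ 2) := by
    nlinarith [sq_nonneg (α * v + α' * u), sq_nonneg (α * c - b * u), sq_nonneg (α' * c + b * v)]
  refine key.trans ?_
  have : 0 ≤ u ^ 2 + v ^ 2 + c ^ 2 := by positivity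
  nlinarith

lemma gi_sq {α α' β : ℝ} (h : α ^ 2 + α' ^ 2 + (2 * β / Real.pi) ^ 2 ≤ 1) (p : ℝ × ℝ) :
    gi α α' β p ^ 2 ≤ Real.sin √(p.1 ^ 2 + p.2 ^ 2 + (Real.pi / 2) ^ 2) ^ 2 := by
  have h1 := lin_sq h p
  unfold gi
  set R := p.1 ^ 2 + p.2 ^ 2 + (Real.pi / 2) ^ 2 with hR
  have hpi := Real.pi_pos
  have hR0 : 0 < R := by positivity
  rw [mul_pow, div_pow, Real.sq_sqrt hR0.le, ← mul_div_assoc, div_le_iff₀ hR0]
  nlinarith [sq_nonneg (Real.sin √R)]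

lemma gi_mem {α α' β : ℝ} (h : α ^ 2 + α' ^ 2 + (2 * β / Real.pi) ^ 2 ≤ 1) :
    (fun p : ℝ × ℝ => ((gi α α' β p : ℝ) : ℂ)) ∈ B := by
  refine ⟨⟨1, fun p => ?_⟩, fun z : ℂ × ℂ => ((α : ℂ) * ((z.1 + z.2) / (√2 : ℝ)) -
    α' * ((z.1 - z.2) / (√2 : ℝ)) + β) * sw (z.1 ^ 2 + z.2 ^ 2), ⟨?_, ?_⟩, fun x y => ?_⟩
  · rw [Complex.norm_real, Real.norm_eq_abs]
    have h1 := (gi_sq h p).trans (Real.sin_sq_le_one _)
    exact (sq_le_one_iff_abs_le_one _).1 h1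
  · intro z hz
    have h1 := an_comp sw_diff z hz
    have h2 : AnalyticAt ℂ (fun z : ℂ × ℂ => (α : ℂ) * ((z.1 + z.2) / (√2 : ℝ)) -
        α' * ((z.1 - z.2) / (√2 : ℝ)) + β) z := by
      have e : (fun z : ℂ × ℂ => (α : ℂ) * ((z.1 + z.2) / (√2 : ℝ)) -
          α' * ((z.1 - z.2) / (√2 : ℝ)) + β) = fun z : ℂ × ℂ =>
          (α : ℂ) * ((z.1 + z.2) * (((√2 : ℝ) : ℂ))⁻¹) - α' * ((z.1 - z.2) * (((√2 : ℝ) : ℂ))⁻¹) + β := by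
        funext z
        simp only [div_eq_mul_inv]
      rw [e]
      exact (((analyticAt_const.mul ((analyticAt_fst.add analyticAt_snd).mul analyticAt_const)).sub
        (analyticAt_const.mul ((analyticAt_fst.sub analyticAt_snd).mul analyticAt_const))).add
        analyticAt_const)
    exact h2.mul h1
  · obtain ⟨K, hK, hb⟩ := sw_growth
    intro ε hε
    set A : ℝ := 2 * |α| + 2 * |α'| + |β| with hA
    have hA0 : 0 ≤ A := by positivity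
    refine ⟨A * (1 + 1 / ε) * K, fun z => ?_⟩
    have n1 : ‖z.1‖ ≤ ‖z‖ := norm_fst_le z
    have n2 : ‖z.2‖ ≤ ‖z‖ := norm_snd_le z
    have hz0 := norm_nonneg z
    have hs1 : (1 : ℝ) ≤ √2 := by
      rw [Real.one_le_sqrt]
      norm_num
    have hn : ‖((√2 : ℝ) : ℂ)‖ = √2 := by
      rw [Complex.norm_real, Real.norm_eq_abs, abs_of_pos s2_pos]
    have hp : ‖(z.1 + z.2) / ((√2 : ℝ) : ℂ)‖ ≤ 2 * ‖z‖ := by
      rw [norm_div, hn, div_le_iff₀ s2_pos]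
      have := norm_add_le z.1 z.2
      nlinarith
    have hm : ‖(z.1 - z.2) / ((√2 : ℝ) : ℂ)‖ ≤ 2 * ‖z‖ := by
      rw [norm_div, hn, div_le_iff₀ s2_pos]
      have := norm_sub_le z.1 z.2
      nlinarith
    have hexp : 1 ≤ Real.exp (ε * ‖z‖) := Real.one_le_exp (by positivity)
    have hexp2 : ‖z‖ ≤ 1 / ε * Real.exp (ε * ‖z‖) := by
      have := Real.add_one_le_exp (ε * ‖z‖)
      rw [one_div, inv_mul_eq_div, le_div_iff₀ hε]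
      nlinarith
    have hlin : ‖(α : ℂ) * ((z.1 + z.2) / ((√2 : ℝ) : ℂ)) - α' * ((z.1 - z.2) / ((√2 : ℝ) : ℂ)) + β‖
        ≤ A * (1 + 1 / ε) * Real.exp (ε * ‖z‖) := by
      calc ‖(α : ℂ) * ((z.1 + z.2) / ((√2 : ℝ) : ℂ)) - α' * ((z.1 - z.2) / ((√2 : ℝ) : ℂ)) + β‖
          ≤ ‖(α : ℂ) * ((z.1 + z.2) / ((√2 : ℝ) : ℂ))‖ + ‖(α' : ℂ) * ((z.1 - z.2) / ((√2 : ℝ) : ℂ))‖
            + ‖(β : ℂ)‖ := (norm_add_le _ _).trans (by gcongr; exact norm_sub_le _ _)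
        _ = |α| * ‖(z.1 + z.2) / ((√2 : ℝ) : ℂ)‖ + |α'| * ‖(z.1 - z.2) / ((√2 : ℝ) : ℂ)‖ + |β| := by
          rw [norm_mul, norm_mul, Complex.norm_real, Complex.norm_real, Complex.norm_real]
          simp only [Real.norm_eq_abs]
        _ ≤ |α| * (2 * ‖z‖) + |α'| * (2 * ‖z‖) + |β| := by gcongr
        _ ≤ A * (1 + ‖z‖) := by
          rw [hA]
          nlinarith [abs_nonneg α, abs_nonneg α', abs_nonneg β, mul_nonneg (abs_nonneg β) hz0]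
        _ ≤ A * (Real.exp (ε * ‖z‖) + 1 / ε * Real.exp (ε * ‖z‖)) := by gcongr
        _ = A * (1 + 1 / ε) * Real.exp (ε * ‖z‖) := by ring
    show ‖((α : ℂ) * ((z.1 + z.2) / ((√2 : ℝ) : ℂ)) - α' * ((z.1 - z.2) / ((√2 : ℝ) : ℂ)) + β) *
      sw (z.1 ^ 2 + z.2 ^ 2)‖ ≤ _
    rw [norm_mul, Real.exp_add]
    have h4 := hb z.1 z.2
    have h0 : 0 ≤ A * (1 + 1 / ε) * Real.exp (ε * ‖z‖) := by positivity
    calc _ ≤ (A * (1 + 1 / ε) * Real.exp (ε * ‖z‖)) * (K * Real.exp √(z.1.im ^ 2 + z.2.im ^ 2)) := by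
          gcongr
      _ = _ := by ring
  · show ((gi α α' β (x, y) : ℝ) : ℂ) = ((α : ℂ) * (((x : ℂ) + y) / ((√2 : ℝ) : ℂ)) -
      α' * (((x : ℂ) - y) / ((√2 : ℝ) : ℂ)) + β) * sw ((x : ℂ) ^ 2 + (y : ℂ) ^ 2)
    have hr : sw ((x : ℂ) ^ 2 + (y : ℂ) ^ 2) = ((Real.sin √(x ^ 2 + y ^ 2 + (Real.pi / 2) ^ 2) /
        √(x ^ 2 + y ^ 2 + (Real.pi / 2) ^ 2) : ℝ) : ℂ) := by
      have hpi := Real.pi_pos
      have hR0 : 0 < x ^ 2 + y ^ 2 + (Real.pi / 2) ^ 2 := by positivity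
      have h0 : ((√(x ^ 2 + y ^ 2 + (Real.pi / 2) ^ 2) : ℝ) : ℂ) ≠ 0 := by
        exact_mod_cast (Real.sqrt_pos.2 hR0).ne'
      have hsq : ((√(x ^ 2 + y ^ 2 + (Real.pi / 2) ^ 2) : ℝ) : ℂ) ^ 2
          = (x : ℂ) ^ 2 + (y : ℂ) ^ 2 + (a : ℂ) ^ 2 := by
        rw [← Complex.ofReal_pow, Real.sq_sqrt hR0.le]
        unfold a
        push_cast
        ring
      rw [sw_eq hsq, snc_ne h0]
      push_cast
      rfl
    rw [hr]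
    unfold gi lin
    push_cast
    ring

theorem fa_mem {α α' β : ℝ} (h : α ^ 2 + α' ^ 2 + (2 * β / Real.pi) ^ 2 ≤ 1) : fa α α' β ∈ B :=
  Pool.Agent.T9h41.EX.add fs fs_mem _ (gi_mem h) I

theorem fa_le {α α' β : ℝ} (h : α ^ 2 + α' ^ 2 + (2 * β / Real.pi) ^ 2 ≤ 1) (p : ℝ × ℝ) :
    ‖fa α α' β p‖ ≤ 1 := by
  have h1 := gi_sq h p
  unfold fa fs
  set X : ℝ := -(2 * p.1 * p.2 / (p.1 ^ 2 + p.2 ^ 2) * Real.cos √(p.1 ^ 2 + p.2 ^ 2 + a ^ 2)) with hX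
  have h2 : X ^ 2 ≤ Real.cos √(p.1 ^ 2 + p.2 ^ 2 + (Real.pi / 2) ^ 2) ^ 2 := by
    have e : (p.1 ^ 2 + p.2 ^ 2 + a ^ 2) = p.1 ^ 2 + p.2 ^ 2 + (Real.pi / 2) ^ 2 := rfl
    rw [hX, e, neg_sq, mul_pow]
    have h3 : (2 * p.1 * p.2 / (p.1 ^ 2 + p.2 ^ 2)) ^ 2 ≤ 1 := by
      rw [sq_le_one_iff_abs_le_one, abs_div, abs_of_nonneg (by positivity : 0 ≤ p.1 ^ 2 + p.2 ^ 2)]
      apply div_le_one_of_le₀ _ (by positivity)
      rw [abs_le]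
      constructor <;> nlinarith [sq_nonneg (p.1 + p.2), sq_nonneg (p.1 - p.2)]
    nlinarith [sq_nonneg (Real.cos √(p.1 ^ 2 + p.2 ^ 2 + (Real.pi / 2) ^ 2))]
  have h4 := Real.sin_sq_add_cos_sq √(p.1 ^ 2 + p.2 ^ 2 + (Real.pi / 2) ^ 2)
  have h5 : ‖(X : ℂ) + I * ((gi α α' β p : ℝ) : ℂ)‖ ^ 2 = X ^ 2 + gi α α' β p ^ 2 := by
    rw [Complex.sq_norm, Complex.normSq_apply]
    generalize gi α α' β p = Y
    simp
    ring
  have h6 : ‖(X : ℂ) + I * ((gi α α' β p : ℝ) : ℂ)‖ ^ 2 ≤ 1 := by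
    rw [h5]
    linarith
  have h7 := norm_nonneg ((X : ℂ) + I * ((gi α α' β p : ℝ) : ℂ))
  nlinarith

theorem fa_p (α α' β s : ℝ) : fa α α' β (s / √2, s / √2) = ext1 α β s := by
  have h := (Pool.Agent.T9h41.EX.infr s).2.1
  unfold fa
  rw [h]
  have e1 : (s / √2) ^ 2 + (s / √2) ^ 2 = s ^ 2 := by
    rw [div_pow, Real.sq_sqrt (by norm_num : (0:ℝ) ≤ 2)]
    ring
  have e2 : (s / √2 + s / √2) / √2 = s := by
    rw [← add_div, div_div, s2]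
    ring
  unfold gi lin ext1
  simp only [e1, e2, sub_self, zero_div, mul_zero, zero_mul, add_zero, sub_zero]
  push_cast
  ring

theorem fa_m (α α' β s : ℝ) : fa α α' β (s / √2, -(s / √2)) = -ext1 α' (-β) s := by
  have h := (Pool.Agent.T9h41.EX.infr s).2.2
  unfold fa
  rw [h]
  have e1 : (s / √2) ^ 2 + (-(s / √2)) ^ 2 = s ^ 2 := by
    rw [neg_sq, div_pow, Real.sq_sqrt (by norm_num : (0:ℝ) ≤ 2)]
    ring
  have e2 : (s / √2 - -(s / √2)) / √2 = s := by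
    rw [sub_neg_eq_add, ← add_div, div_div, s2]
    ring
  have e3 : s / √2 + -(s / √2) = 0 := by ring
  unfold gi lin ext1
  simp only [e1, e2, e3, zero_div, mul_zero, zero_mul, add_zero, zero_sub]
  push_cast
  ring

/-- every triple in the ball occurs -/
theorem fam (α α' β : ℝ) (h : α ^ 2 + α' ^ 2 + (2 * β / Real.pi) ^ 2 ≤ 1) :
    fa α α' β ∈ B ∧ (∀ p, ‖fa α α' β p‖ ≤ 1) ∧ T (fa α α' β) 0 = ((2 / Real.pi : ℝ) : ℂ) ∧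
      (∀ s : ℝ, fa α α' β (s / √2, s / √2) = ext1 α β s) ∧
      (∀ s : ℝ, fa α α' β (s / √2, -(s / √2)) = -ext1 α' (-β) s) :=
  ⟨fa_mem h, fa_le h, Pool.Agent.T9h94.EX2.conv' _ (fa_mem h) α α' β (fa_p α α' β) (fa_m α α' β),
    fa_p α α' β, fa_m α α' β⟩

end Pool.Agent.T9h65.EX
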