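import Pool.Agent.K7.H38.MD.Norm

/-! One-dimensional extremals of the functional `U`. -/

set_option autoImplicit false

open Complex Filter Topology Metric Set
open Pool.Agent.Helper797.Bs
open Pool.Agent.K7.H38.MD

namespace Pool.Agent.T9h65.EX

/-- an even function in the variable `s`, `s ^ 2 = z ^ 2 + a ^ 2` -/
noncomputable def gg (F : ℂ → ℂ) (s : ℂ) : ℂ := ev F (s ^ 2 - (a : ℂ) ^ 2)

lemma gg_diff {F : ℂ → ℂ} (hF : Differentiable ℂ F) (hev : ∀ s, F (-s) = F s) :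
    Differentiable ℂ (gg F) := (ev_differentiable hF hev).comp (by fun_prop)

lemma gg_neg (F : ℂ → ℂ) (s : ℂ) : gg F (-s) = gg F s := by simp only [gg, neg_sq]

lemma gg_growth {F : ℂ → ℂ} {M : ℝ} (hM : 0 ≤ M) (hb : ∀ z, ‖F z‖ ≤ M * Real.exp |z.im|) (s : ℂ) :
    ‖gg F s‖ ≤ (M * Real.exp |a|) * Real.exp |s.im| := by
  have h1 : gg F s = F (Complex.sqrt (s ^ 2 - (a:ℂ) ^ 2)) := rfl
  rw [h1]
  refine (hb _).trans ?_
  rw [mul_assoc, ← Real.exp_add]
  apply mul_le_mul_of_nonneg_left _ hM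
  apply Real.exp_le_exp.mpr
  have := im_le_of_sub (sq_sqrt (s ^ 2 - (a:ℂ) ^ 2))
  linarith

lemma gg_at {F : ℂ → ℂ} (hev : ∀ s, F (-s) = F s) {z s : ℂ} (h : z ^ 2 = s ^ 2 - (a : ℂ) ^ 2) :
    gg F s = F z := ev_eq hev h

lemma a_lt_pi : a < Real.pi := by unfold a; linarith [Real.pi_pos]

/-- the nodes -/
lemma node {k : ℤ} (hk : k ≠ 0) : 0 < ((k : ℝ) * Real.pi) ^ 2 - a ^ 2 := by
  have h4 : (1:ℝ) ≤ (k:ℝ) ^ 2 := by
    have : (1:ℤ) ≤ k ^ 2 := by
      have := Int.one_le_abs hk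
      nlinarith [sq_abs k]
    exact_mod_cast this
  have hpi := Real.pi_pos
  have h5 : Real.pi ^ 2 ≤ ((k:ℝ) * Real.pi) ^ 2 := by
    rw [mul_pow]
    nlinarith [sq_nonneg Real.pi]
  have h6 : a ^ 2 < Real.pi ^ 2 := by
    have := a_lt_pi
    have := a_pos
    nlinarith
  linarith

/-- the positive node `x_k` -/
noncomputable def nd (k : ℤ) : ℝ := √(((k : ℝ) * Real.pi) ^ 2 - a ^ 2)

lemma nd_pos {k : ℤ} (hk : k ≠ 0) : 0 < nd k := Real.sqrt_pos.2 (node hk)

lemma nd_sq {k : ℤ} (hk : k ≠ 0) : ((nd k : ℝ) : ℂ) ^ 2 = ((k : ℂ) * Real.pi) ^ 2 - (a : ℂ) ^ 2 := by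
  unfold nd
  rw [← Complex.ofReal_pow, Real.sq_sqrt (node hk).le]
  push_cast
  ring

lemma gg_nd {F : ℂ → ℂ} (hev : ∀ s, F (-s) = F s) {k : ℤ} (hk : k ≠ 0) :
    gg F ((k : ℂ) * Real.pi) = F (nd k : ℝ) := gg_at hev (nd_sq hk)

lemma gg_deriv {F : ℂ → ℂ} (hF : Differentiable ℂ F) (hev : ∀ s, F (-s) = F s) :
    HasDerivAt (gg F) (a * deriv (deriv F) 0) (a:ℂ) ∧ gg F a = F 0 := by
  set G : ℂ → ℂ := ev F with hG
  have hGd : Differentiable ℂ G := ev_differentiable hF hev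
  have hGF : ∀ z, G (z ^ 2) = F z := fun z => ev_eq hev rfl
  have hGa : HasDerivAt G (deriv G 0) 0 := (hGd 0).hasDerivAt
  have hga : HasDerivAt (gg F) (2 * a * deriv G 0) (a:ℂ) := by
    have h1 : HasDerivAt (fun s : ℂ => s ^ 2 - (a:ℂ) ^ 2) (2 * (a:ℂ)) (a:ℂ) := by
      have := ((hasDerivAt_id (a:ℂ)).pow 2).sub_const ((a:ℂ) ^ 2)
      simpa using this
    have h2 : HasDerivAt G (deriv G 0) ((a:ℂ) ^ 2 - (a:ℂ) ^ 2) := by rw [sub_self]; exact hGa
    have h3 := h2.comp (a:ℂ) h1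
    rw [mul_comm] at h3
    exact h3
  have hF2 : deriv (deriv F) 0 = 2 * deriv G 0 := by
    have hdF : deriv F = fun z => 2 * z * deriv G (z ^ 2) := by
      ext z
      have h1 : HasDerivAt (fun s : ℂ => s ^ 2) (2 * z) z := by
        simpa using hasDerivAt_pow 2 z
      have h2 : HasDerivAt G (deriv G (z ^ 2)) (z ^ 2) := (hGd _).hasDerivAt
      have h3 := h2.comp z h1
      have h4 : G ∘ (fun s : ℂ => s ^ 2) = F := by ext s; exact hGF s
      rw [h4] at h3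
      rw [h3.deriv]; ring
    rw [hdF]
    have hGd2 : Differentiable ℂ (deriv G) := hGd.deriv
    have h1 : HasDerivAt (fun z : ℂ => 2 * z) 2 (0:ℂ) := by
      simpa using (hasDerivAt_id (0:ℂ)).const_mul 2
    have h2 : DifferentiableAt ℂ (fun z : ℂ => deriv G (z ^ 2)) 0 :=
      (hGd2.comp (by fun_prop)) 0
    have h3 := h1.mul h2.hasDerivAt
    have h4 := h3.deriv
    have e : ((fun z : ℂ => 2 * z) * fun z => deriv G (z ^ 2)) = fun z => 2 * z * deriv G (z ^ 2) := rfl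
    rw [e] at h4
    rw [h4]; norm_num
  refine ⟨?_, ?_⟩
  · rw [hF2]
    convert hga using 1
    ring
  · unfold gg
    rw [sub_self]
    exact ev_eq hev (by ring)

lemma cos_sq_int (k : ℤ) : Complex.cos ((k : ℂ) * Real.pi) ^ 2 = 1 := by
  have h1 : Complex.sin ((k : ℂ) * Real.pi) = 0 := Complex.sin_eq_zero_iff.mpr ⟨k, rfl⟩
  have h2 := Complex.sin_sq_add_cos_sq ((k : ℂ) * Real.pi)
  rw [h1] at h2
  linear_combination h2

lemma snc_int {k : ℤ} (hk : k ≠ 0) : snc ((k : ℂ) * Real.pi) = 0 := by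
  have hpi : (Real.pi : ℂ) ≠ 0 := by exact_mod_cast Real.pi_pos.ne'
  have hk' : (k : ℂ) ≠ 0 := by exact_mod_cast hk
  rw [snc_ne (mul_ne_zero hk' hpi), Complex.sin_eq_zero_iff.mpr ⟨k, rfl⟩, zero_div]

/-- the function `s sin s / (s ^ 2 - K ^ 2)`, `K = k π` -/
noncomputable def ee (k : ℤ) (s : ℂ) : ℂ :=
  Complex.cos ((k : ℂ) * Real.pi) / 2 * (snc (s - (k : ℂ) * Real.pi) + snc (s + (k : ℂ) * Real.pi))

lemma ee_diff (k : ℤ) : Differentiable ℂ (ee k) := by
  unfold ee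
  exact ((snc_diff.comp (by fun_prop)).add (snc_diff.comp (by fun_prop))).const_mul _

lemma ee_neg (k : ℤ) (s : ℂ) : ee k (-s) = ee k s := by
  unfold ee
  rw [← snc_neg (-s - (k : ℂ) * Real.pi), ← snc_neg (-s + (k : ℂ) * Real.pi)]
  rw [show -(-s - (k : ℂ) * Real.pi) = s + (k : ℂ) * Real.pi by ring,
    show -(-s + (k : ℂ) * Real.pi) = s - (k : ℂ) * Real.pi by ring, add_comm]

lemma ee_growth (k : ℤ) : ∃ C : ℝ, 0 ≤ C ∧ ∀ s, ‖ee k s‖ ≤ C * Real.exp |s.im| := by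
  obtain ⟨C, hC, hb⟩ := snc_bound
  refine ⟨C, hC, fun s => ?_⟩
  have h1 := hb (s - (k : ℂ) * Real.pi)
  have h2 := hb (s + (k : ℂ) * Real.pi)
  have i1 : (s - (k : ℂ) * Real.pi).im = s.im := by simp
  have i2 : (s + (k : ℂ) * Real.pi).im = s.im := by simp
  rw [i1] at h1
  rw [i2] at h2
  unfold ee
  rw [norm_mul, norm_div, norm_cos_int]
  have h3 := norm_add_le (snc (s - (k : ℂ) * Real.pi)) (snc (s + (k : ℂ) * Real.pi))
  have h4 : ‖(2:ℂ)‖ = 2 := by simp
  rw [h4]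
  linarith

lemma ee_self {k : ℤ} (hk : k ≠ 0) : ee k ((k : ℂ) * Real.pi) = Complex.cos ((k : ℂ) * Real.pi) / 2 := by
  unfold ee
  rw [sub_self, snc_zero, show (k : ℂ) * Real.pi + (k : ℂ) * Real.pi = ((2 * k : ℤ) : ℂ) * Real.pi by
    push_cast; ring, snc_int (by omega), add_zero, mul_one]

lemma ee_other {k j : ℤ} (h1 : j ≠ k) (h2 : j ≠ -k) : ee k ((j : ℂ) * Real.pi) = 0 := by
  unfold ee
  rw [show (j : ℂ) * Real.pi - (k : ℂ) * Real.pi = ((j - k : ℤ) : ℂ) * Real.pi by push_cast; ring,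
    show (j : ℂ) * Real.pi + (k : ℂ) * Real.pi = ((j + k : ℤ) : ℂ) * Real.pi by push_cast; ring,
    snc_int (by omega), snc_int (by omega)]
  ring

lemma hfun_ee {k : ℤ} {x : ℝ} (h0 : 0 < x) (h1 : x < Real.pi) :
    hfun (ee k) x = (x : ℂ) ^ 2 / ((x : ℂ) ^ 2 - ((k : ℂ) * Real.pi) ^ 2) := by
  have hne := int_pi_ne h0 h1 k
  have hm : (x : ℂ) - (k : ℂ) * Real.pi ≠ 0 := by
    intro h
    apply hne
    linear_combination (-((k : ℂ) * Real.pi) - x) * h
  have hp : (x : ℂ) + (k : ℂ) * Real.pi ≠ 0 := by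
    intro h
    apply hne
    linear_combination ((k : ℂ) * Real.pi - x) * h
  have hs := sin_ne h0 h1
  have s0 : Complex.sin ((k : ℂ) * Real.pi) = 0 := Complex.sin_eq_zero_iff.mpr ⟨k, rfl⟩
  have hne' : (x : ℂ) ^ 2 - ((k : ℂ) * Real.pi) ^ 2 ≠ 0 := by
    intro h
    apply hne
    linear_combination -h
  unfold hfun ee
  rw [snc_ne hm, snc_ne hp, Complex.sin_sub, Complex.sin_add, s0, mul_zero, sub_zero, add_zero]
  have hc := cos_sq_int k
  rw [div_eq_div_iff hs hne']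
  set c := Complex.cos ((k : ℂ) * Real.pi) with hcdef
  set K := (k : ℂ) * Real.pi with hK
  field_simp
  linear_combination (2 * (x : ℂ) ^ 2 * (x ^ 2 - K ^ 2)) * hc

lemma hfun_ee_deriv {k : ℤ} (hk : k ≠ 0) :
    HasDerivAt (fun x : ℝ => hfun (ee k) x)
      (((-(2 * a * ((k : ℝ) * Real.pi) ^ 2 / (((k : ℝ) * Real.pi) ^ 2 - a ^ 2) ^ 2) : ℝ) : ℂ)) a := by
  have hn := node hk
  have hne : a ^ 2 - ((k : ℝ) * Real.pi) ^ 2 ≠ 0 := by linarith
  have h1 : HasDerivAt (fun x : ℝ => x ^ 2 / (x ^ 2 - ((k : ℝ) * Real.pi) ^ 2))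
      (-(2 * a * ((k : ℝ) * Real.pi) ^ 2 / (((k : ℝ) * Real.pi) ^ 2 - a ^ 2) ^ 2)) a := by
    have h2 : HasDerivAt (fun x : ℝ => x ^ 2) (2 * a) a := by simpa using hasDerivAt_pow 2 a
    have h3 : HasDerivAt (fun x : ℝ => x ^ 2 / (x ^ 2 - ((k : ℝ) * Real.pi) ^ 2))
        ((2 * a * (a ^ 2 - ((k : ℝ) * Real.pi) ^ 2) - a ^ 2 * (2 * a)) /
          (a ^ 2 - ((k : ℝ) * Real.pi) ^ 2) ^ 2) a :=
      h2.div (h2.sub_const (((k : ℝ) * Real.pi) ^ 2)) hne
    refine h3.congr_deriv ?_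
    rw [show (a ^ 2 - ((k : ℝ) * Real.pi) ^ 2) ^ 2 = (((k : ℝ) * Real.pi) ^ 2 - a ^ 2) ^ 2 by ring,
      ← neg_div]
    congr 1
    ring
  refine h1.ofReal_comp.congr_of_eventuallyEq ?_
  have : Ioo (0:ℝ) Real.pi ∈ 𝓝 a := Ioo_mem_nhds a_pos a_lt_pi
  filter_upwards [this] with x hx
  rw [hfun_ee hx.1 hx.2]
  push_cast
  ring

lemma sin_aR : Real.sin a = 1 := by unfold a; exact Real.sin_pi_div_two
lemma cos_aR : Real.cos a = 0 := by unfold a; exact Real.cos_pi_div_two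

/-- the value of an extremal function at the nodes -/
theorem nodes {F : ℂ → ℂ} (hF : Differentiable ℂ F) (hev : ∀ s, F (-s) = F s)
    (hb : ∀ z, ‖F z‖ ≤ 1 * Real.exp |z.im|) (hU : U F = ((2 / Real.pi : ℝ) : ℂ)) {k : ℤ} (hk : k ≠ 0) :
    gg F ((k : ℂ) * Real.pi) = -Complex.cos ((k : ℂ) * Real.pi) := by
  obtain ⟨hd, hv⟩ := gg_deriv hF hev
  obtain ⟨Ce, hCe, hbe⟩ := ee_growth k
  set c := gg F ((k : ℂ) * Real.pi) with hc
  set cK := Complex.cos ((k : ℂ) * Real.pi) with hcK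
  have hcK2 : cK ^ 2 = 1 := cos_sq_int k
  have hcKn : ‖cK‖ = 1 := norm_cos_int k
  have hnode : ∀ j : ℤ, j ≠ 0 → ‖gg F ((j : ℂ) * Real.pi)‖ ≤ 1 := by
    intro j hj
    rw [gg_nd hev hj]
    have := hb (nd j : ℝ)
    simpa using this
  set τ : ℂ := -2 * (1 + c * cK) with hτ
  set g : ℂ → ℂ := fun s => gg F s + τ * ee k s with hg
  have hgd : Differentiable ℂ g := (gg_diff hF hev).add ((ee_diff k).const_mul _)
  have hgev : ∀ s, g (-s) = g s := by
    intro s
    simp only [hg, gg_neg, ee_neg]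
  have hgC : ∀ s, ‖g s‖ ≤ (1 * Real.exp |a| + ‖τ‖ * Ce) * Real.exp |s.im| := by
    intro s
    have h1 := gg_growth zero_le_one hb s
    have h2 := hbe s
    calc ‖g s‖ ≤ ‖gg F s‖ + ‖τ * ee k s‖ := norm_add_le _ _
      _ ≤ (1 * Real.exp |a|) * Real.exp |s.im| + ‖τ‖ * (Ce * Real.exp |s.im|) := by
        rw [norm_mul]
        gcongr
      _ = _ := by ring
  have hgk : g ((k : ℂ) * Real.pi) = -cK := by
    simp only [hg]
    rw [ee_self hk, ← hc, ← hcK, hτ]
    linear_combination (-c) * hcK2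
  have hgM : ∀ j : ℤ, j ≠ 0 → ‖g ((j:ℂ) * Real.pi)‖ ≤ 1 := by
    intro j hj
    rcases eq_or_ne j k with h1 | h1
    · rw [h1, hgk, norm_neg, hcKn]
    · rcases eq_or_ne j (-k) with h2 | h2
      · rw [h2, show ((-k : ℤ) : ℂ) * Real.pi = -((k : ℂ) * Real.pi) by push_cast; ring, hgev, hgk,
          norm_neg, hcKn]
      · simp only [hg]
        rw [ee_other h1 h2, mul_zero, add_zero]
        exact hnode j hj
  have hs := sin_ne a_pos a_lt_pi
  have ha0 : (a : ℂ) ≠ 0 := by exact_mod_cast a_pos.ne'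
  have hH : HasDerivAt (fun x : ℝ => hfun (gg F) x) (a : ℂ) a := by
    have h1 := hasDeriv_hfun hd hs
    rw [sin_a, cos_a, hv] at h1
    convert h1 using 1
    have h2 : deriv (deriv F) 0 = ((2 / Real.pi : ℝ) : ℂ) - ((4 / Real.pi ^ 2 : ℝ) : ℂ) * F 0 := by
      rw [← hU]
      unfold U
      ring
    rw [h2]
    unfold a
    have hpi : (Real.pi : ℂ) ≠ 0 := by exact_mod_cast Real.pi_pos.ne'
    push_cast
    field_simp
    ring
  have hH0 := hasDeriv_hfun (Complex.hasDerivAt_cos (a:ℂ)) hs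
  have he := hfun_ee_deriv hk
  have hsum : HasDerivAt (fun x : ℝ => hfun g x) ((a : ℂ) + τ *
      (((-(2 * a * ((k : ℝ) * Real.pi) ^ 2 / (((k : ℝ) * Real.pi) ^ 2 - a ^ 2) ^ 2) : ℝ) : ℂ))) a := by
    refine (hH.add (he.const_mul τ)).congr_of_eventuallyEq (Eventually.of_forall fun x => ?_)
    simp only [hfun, hg, Pi.add_apply]
    ring
  have hmain := deriv_uineq hgd hgev (by positivity) hgC zero_le_one hgM a_pos a_lt_pi hsum hH0
  rw [sin_a, cos_a] at hmain
  set h : ℝ := 2 * a * ((k : ℝ) * Real.pi) ^ 2 / (((k : ℝ) * Real.pi) ^ 2 - a ^ 2) ^ 2 with hh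
  have hhpos : 0 < h := by
    have := node hk
    have h1 : 0 < ((k : ℝ) * Real.pi) ^ 2 := by nlinarith [sq_nonneg a]
    have h2 := a_pos
    positivity
  have hR : ‖(a : ℂ) + τ * ((-h : ℝ) : ℂ)‖ ≤ a := by
    refine hmain.trans (le_of_eq ?_)
    have e : (((0:ℂ) + a * -1) * 1 - a * 0 * 0) / 1 ^ 2 = ((-a : ℝ) : ℂ) := by push_cast; ring
    rw [e, one_mul, Complex.norm_real, norm_neg, Real.norm_eq_abs, abs_of_pos a_pos]
  have hre : a + 2 * h * (1 + (c * cK).re) ≤ a := by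
    refine le_trans (le_of_eq ?_) ((Complex.re_le_norm _).trans hR)
    rw [hτ]
    simp [Complex.mul_re]
    ring
  have hcn : ‖c * cK‖ ≤ 1 := by
    rw [norm_mul, hcKn, mul_one]
    exact hnode k hk
  have h1 : (c * cK).re ≤ -1 := by
    by_contra hcon
    push Not at hcon
    have : 0 < 2 * h * (1 + (c * cK).re) := by
      apply mul_pos (by linarith)
      linarith
    linarith
  have h2 : c * cK = -1 := by
    have h3 : ‖c * cK‖ ^ 2 ≤ 1 := by
      have := norm_nonneg (c * cK)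
      nlinarith
    rw [Complex.sq_norm, Complex.normSq_apply] at h3
    have h4 : (c * cK).im = 0 := by nlinarith [sq_nonneg (c * cK).im]
    have h5 : (c * cK).re = -1 := by nlinarith [sq_nonneg (c * cK).im]
    apply Complex.ext
    · simpa using h5
    · simpa using h4
  linear_combination (-c) * hcK2 + cK * h2

/-- an even function of type `1` which vanishes at all `k π`, `k ≠ 0` -/
theorem sinc_unique {G : ℂ → ℂ} (hG : Differentiable ℂ G) (hev : ∀ s, G (-s) = G s) {C : ℝ}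
    (hC : 0 ≤ C) (hb : ∀ s, ‖G s‖ ≤ C * Real.exp |s.im|)
    (h0 : ∀ k : ℤ, k ≠ 0 → G ((k : ℂ) * Real.pi) = 0) : ∃ β : ℂ, ∀ s, G s = β * snc s := by
  have hconst : ∀ x : ℝ, 0 < x → x < Real.pi → hfun G x = hfun G a := by
    intro x hx0 hx1
    rcases eq_or_ne x a with rfl | hxa
    · rfl
    · have h := uineq hG hev hC hb le_rfl (M := 0) (fun k hk => by rw [h0 k hk, norm_zero]) hx0 hx1
        a_pos a_lt_pi hxa
      rw [zero_mul] at h
      exact sub_eq_zero.1 (norm_le_zero_iff.1 h)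
  refine ⟨hfun G a, ?_⟩
  have hfre : ∃ᶠ z in 𝓝[≠] (a : ℂ), G z = hfun G a * snc z := by
    have ht : Tendsto (fun x : ℝ => (x : ℂ)) (𝓝[≠] a) (𝓝[≠] (a : ℂ)) := by
      refine tendsto_nhdsWithin_of_tendsto_nhds_of_eventually_within _
        ((Complex.continuous_ofReal.tendsto a).mono_left nhdsWithin_le_nhds) ?_
      filter_upwards [self_mem_nhdsWithin] with x hx
      simpa using hx
    refine ht.frequently ?_
    refine Eventually.frequently ?_
    have : Ioo (0:ℝ) Real.pi ∈ 𝓝[≠] a := nhdsWithin_le_nhds (Ioo_mem_nhds a_pos a_lt_pi)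
    filter_upwards [this] with x hx
    have hx0 : (x : ℂ) ≠ 0 := by exact_mod_cast hx.1.ne'
    have hsx := sin_ne hx.1 hx.2
    rw [← hconst x hx.1 hx.2, snc_ne hx0]
    unfold hfun
    field_simp
  have hA : AnalyticOnNhd ℂ G univ := fun z _ => hG.analyticAt z
  have hB : AnalyticOnNhd ℂ (fun z => hfun G a * snc z) univ :=
    fun z _ => (snc_diff.const_mul _).analyticAt z
  have := hA.eq_of_frequently_eq hB hfre
  intro s
  exact congrFun this s

/-- an even function which vanishes at all nodes -/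
theorem even_form {F : ℂ → ℂ} (hF : Differentiable ℂ F) (hev : ∀ s, F (-s) = F s) {C : ℝ}
    (hC : 0 ≤ C) (hb : ∀ z, ‖F z‖ ≤ C * Real.exp |z.im|)
    (h0 : ∀ k : ℤ, k ≠ 0 → gg F ((k : ℂ) * Real.pi) = 0) : ∃ β : ℂ, ∀ z, F z = β * sw (z ^ 2) := by
  obtain ⟨β, hβ⟩ := sinc_unique (gg_diff hF hev) (gg_neg F) (by positivity) (gg_growth hC hb) h0
  refine ⟨β, fun z => ?_⟩
  set s := Complex.sqrt (z ^ 2 + (a : ℂ) ^ 2) with hs
  have hs2 : s ^ 2 = z ^ 2 + (a : ℂ) ^ 2 := sq_sqrt _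
  rw [sw_eq hs2, ← hβ s]
  exact (gg_at hev (by rw [hs2]; ring)).symm

lemma cw_sq_growth (z : ℂ) : ‖cw (z ^ 2)‖ ≤ Real.exp |z.im| := by
  have h := cw_growth z 0
  simp only [ne_eq, OfNat.ofNat_ne_zero, not_false_eq_true, zero_pow, add_zero, Complex.zero_im] at h
  rwa [Real.sqrt_sq_eq_abs] at h

lemma gg_cw (k : ℤ) : gg (fun z => cw (z ^ 2)) ((k : ℂ) * Real.pi) = Complex.cos ((k : ℂ) * Real.pi) := by
  have h : gg (fun z => cw (z ^ 2)) ((k : ℂ) * Real.pi)
      = cw ((Complex.sqrt (((k : ℂ) * Real.pi) ^ 2 - (a : ℂ) ^ 2)) ^ 2) := rfl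
  rw [h, sq_sqrt]
  exact cw_eq (by ring)

/-- even and odd part -/
noncomputable def evp (F : ℂ → ℂ) (z : ℂ) : ℂ := (F z + F (-z)) / 2
noncomputable def odp (F : ℂ → ℂ) (z : ℂ) : ℂ := (F z - F (-z)) / 2

lemma evp_diff {F : ℂ → ℂ} (hF : Differentiable ℂ F) : Differentiable ℂ (evp F) :=
  (hF.add (hF.comp differentiable_neg)).div_const 2

lemma odp_diff {F : ℂ → ℂ} (hF : Differentiable ℂ F) : Differentiable ℂ (odp F) :=
  (hF.sub (hF.comp differentiable_neg)).div_const 2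

lemma evp_neg (F : ℂ → ℂ) (z : ℂ) : evp F (-z) = evp F z := by
  simp only [evp, neg_neg]
  ring

lemma odp_neg (F : ℂ → ℂ) (z : ℂ) : odp F (-z) = -odp F z := by
  simp only [odp, neg_neg]
  ring

lemma evp_growth {F : ℂ → ℂ} (hb : ∀ z, ‖F z‖ ≤ 1 * Real.exp |z.im|) (z : ℂ) :
    ‖evp F z‖ ≤ 1 * Real.exp |z.im| := by
  have h1 := norm_add_le (F z) (F (-z))
  have h2 := hb z
  have h3 := hb (-z)
  rw [Complex.neg_im, abs_neg] at h3
  have h4 : ‖(2:ℂ)‖ = 2 := by simp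
  unfold evp
  rw [norm_div, h4, div_le_iff₀ (by norm_num)]
  linarith

lemma odp_growth {F : ℂ → ℂ} (hb : ∀ z, ‖F z‖ ≤ 1 * Real.exp |z.im|) (z : ℂ) :
    ‖odp F z‖ ≤ 1 * Real.exp |z.im| := by
  have h1 := norm_sub_le (F z) (F (-z))
  have h2 := hb z
  have h3 := hb (-z)
  rw [Complex.neg_im, abs_neg] at h3
  have h4 : ‖(2:ℂ)‖ = 2 := by simp
  unfold odp
  rw [norm_div, h4, div_le_iff₀ (by norm_num)]
  linarith

lemma deriv_neg_comp {F : ℂ → ℂ} (hF : Differentiable ℂ F) (z : ℂ) :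
    HasDerivAt (fun z => F (-z)) (-deriv F (-z)) z := by
  have d3 : HasDerivAt F (deriv F (-z)) (-z) := (hF (-z)).hasDerivAt
  have h := HasDerivAt.comp z d3 (hasDerivAt_neg z)
  rw [mul_neg_one] at h
  exact h

lemma evp_deriv2 {F : ℂ → ℂ} (hF : Differentiable ℂ F) :
    deriv (deriv (evp F)) 0 = deriv (deriv F) 0 := by
  have h1 : deriv (evp F) = fun z => (deriv F z - deriv F (-z)) / 2 := by
    ext z
    have h2 : HasDerivAt (fun z => (F z + F (-z)) / 2) ((deriv F z + -deriv F (-z)) / 2) z :=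
      ((hF z).hasDerivAt.add (deriv_neg_comp hF z)).div_const 2
    have h3 : deriv (evp F) z = (deriv F z + -deriv F (-z)) / 2 := h2.deriv
    rw [h3]
    ring
  rw [h1]
  have h2 : HasDerivAt (fun z => (deriv F z - deriv F (-z)) / 2)
      ((deriv (deriv F) 0 - -deriv (deriv F) (-0)) / 2) 0 :=
    ((hF.deriv 0).hasDerivAt.sub (deriv_neg_comp hF.deriv 0)).div_const 2
  rw [h2.deriv, neg_zero]
  ring

lemma U_evp {F : ℂ → ℂ} (hF : Differentiable ℂ F) : U (evp F) = U F := by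
  unfold U
  rw [evp_deriv2 hF]
  have : evp F 0 = F 0 := by
    simp only [evp, neg_zero]
    ring
  rw [this]

/-- the even part of an extremal function -/
theorem ext_even {F : ℂ → ℂ} (hF : Differentiable ℂ F) (hb : ∀ z, ‖F z‖ ≤ 1 * Real.exp |z.im|)
    (hU : U F = ((2 / Real.pi : ℝ) : ℂ)) : ∃ β : ℂ, ∀ z, evp F z = -cw (z ^ 2) + β * sw (z ^ 2) := by
  have hE := evp_diff hF
  have hn : ∀ k : ℤ, k ≠ 0 → gg (evp F) ((k : ℂ) * Real.pi) = -Complex.cos ((k : ℂ) * Real.pi) :=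
    fun k hk => nodes hE (evp_neg F) (evp_growth hb) (by rw [U_evp hF, hU]) hk
  have hcd : Differentiable ℂ (fun z : ℂ => cw (z ^ 2)) := cw_diff.comp (by fun_prop)
  obtain ⟨β, hβ⟩ := even_form (F := fun z => evp F z + cw (z ^ 2)) (hE.add hcd)
    (fun s => by simp only [evp_neg, neg_sq]) (C := 2) (by norm_num)
    (fun z => by
      have h1 := evp_growth hb z
      have h2 := cw_sq_growth z
      have h3 := norm_add_le (evp F z) (cw (z ^ 2))
      linarith)
    (fun k hk => by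
      have h1 := hn k hk
      have h2 := gg_cw k
      have h3 : gg (fun z => evp F z + cw (z ^ 2)) ((k : ℂ) * Real.pi)
          = gg (evp F) ((k : ℂ) * Real.pi) + gg (fun z => cw (z ^ 2)) ((k : ℂ) * Real.pi) := rfl
      rw [h3, h1, h2]
      ring)
  refine ⟨β, fun z => ?_⟩
  have := hβ z
  linear_combination this

/-- the odd part of an extremal function -/
theorem ext_odd {F : ℂ → ℂ} (hF : Differentiable ℂ F) (hb : ∀ z, ‖F z‖ ≤ 1 * Real.exp |z.im|)
    (hU : U F = ((2 / Real.pi : ℝ) : ℂ)) : ∃ α : ℂ, ∀ z, odp F z = α * z * sw (z ^ 2) := by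
  have hE := evp_diff hF
  have hO := odp_diff hF
  have hn : ∀ k : ℤ, k ≠ 0 → odp F (nd k : ℝ) = 0 := by
    intro k hk
    have h1 := nodes hE (evp_neg F) (evp_growth hb) (by rw [U_evp hF, hU]) hk
    rw [gg_nd (evp_neg F) hk] at h1
    have h2 : ‖evp F (nd k : ℝ)‖ = 1 := by rw [h1, norm_neg, norm_cos_int]
    have h3 : ‖F (nd k : ℝ)‖ ≤ 1 := by simpa using hb (nd k : ℝ)
    have h4 : ‖F (-(nd k : ℝ))‖ ≤ 1 := by simpa using hb (-(nd k : ℝ))
    have h5 := parallelogram_law_with_norm ℝ (evp F (nd k : ℝ)) (odp F (nd k : ℝ))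
    have e1 : evp F (nd k : ℝ) + odp F (nd k : ℝ) = F (nd k : ℝ) := by
      simp only [evp, odp]
      ring
    have e2 : evp F (nd k : ℝ) - odp F (nd k : ℝ) = F (-(nd k : ℝ)) := by
      simp only [evp, odp]
      ring
    rw [e1, e2, h2] at h5
    have h6 := norm_nonneg (F (nd k : ℝ))
    have h7 := norm_nonneg (F (-(nd k : ℝ)))
    have h8 : ‖odp F (nd k : ℝ)‖ ^ 2 ≤ 0 := by nlinarith
    have h9 : ‖odp F (nd k : ℝ)‖ = 0 := by nlinarith [norm_nonneg (odp F (nd k : ℝ))]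
    exact norm_eq_zero.1 h9
  have hO0 : odp F 0 = 0 := by simp [odp]
  set P : ℂ → ℂ := dslope (odp F) 0 with hP
  have hPd : Differentiable ℂ P := by
    have h : DifferentiableOn ℂ P univ :=
      (Complex.differentiableOn_dslope (by simp)).2 hO.differentiableOn
    exact fun z => (h z (mem_univ z)).differentiableAt (by simp)
  have hPne : ∀ z, z ≠ 0 → P z = odp F z / z := by
    intro z hz
    rw [hP, dslope_of_ne _ hz, slope_def_field, hO0]
    simp
  have hPmul : ∀ z, odp F z = z * P z := by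
    intro z
    rcases eq_or_ne z 0 with rfl | hz
    · rw [hO0, zero_mul]
    · rw [hPne z hz]
      field_simp
  have hPev : ∀ s, P (-s) = P s := by
    intro s
    rcases eq_or_ne s 0 with rfl | hs
    · rw [neg_zero]
    · rw [hPne s hs, hPne (-s) (neg_ne_zero.2 hs), odp_neg, neg_div_neg_eq]
  obtain ⟨C, hC⟩ := (isCompact_closedBall (0 : ℂ) 1).exists_bound_of_continuousOn
    hPd.continuous.continuousOn
  have hPb : ∀ z, ‖P z‖ ≤ max C 1 * Real.exp |z.im| := by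
    intro z
    have he : 1 ≤ Real.exp |z.im| := Real.one_le_exp (abs_nonneg _)
    have h2 : C ≤ max C 1 := le_max_left _ _
    have h3 : (1:ℝ) ≤ max C 1 := le_max_right _ _
    rcases le_total ‖z‖ 1 with h | h
    · have h1 := hC z (by simpa using h)
      nlinarith
    · have hne : z ≠ 0 := by
        intro h0
        rw [h0, norm_zero] at h
        linarith
      rw [hPne z hne, norm_div]
      have h1 := odp_growth hb z
      have h4 : ‖odp F z‖ / ‖z‖ ≤ ‖odp F z‖ := div_le_self (norm_nonneg _) h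
      nlinarith
  obtain ⟨α, hα⟩ := even_form hPd hPev (C := max C 1) (le_max_of_le_right zero_le_one) hPb
    (fun k hk => by
      have h0 : ((nd k : ℝ) : ℂ) ≠ 0 := by exact_mod_cast (nd_pos hk).ne'
      rw [gg_nd hPev hk, hPne _ h0, hn k hk, zero_div])
  refine ⟨α, fun z => ?_⟩
  rw [hPmul z, hα z]
  ring

/-- `θ(x) = √(x ^ 2 + a ^ 2)` -/
noncomputable def th (x : ℝ) : ℝ := √(x ^ 2 + a ^ 2)

lemma th_pos (x : ℝ) : 0 < th x := Real.sqrt_pos.2 (by have := a_pos; positivity)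

lemma th_sq (x : ℝ) : th x ^ 2 = x ^ 2 + a ^ 2 := Real.sq_sqrt (by positivity)

lemma cw_real (x : ℝ) : cw ((x : ℂ) ^ 2) = (Real.cos (th x) : ℝ) := by
  rw [cw_eq (s := (th x : ℝ)) (by exact_mod_cast th_sq x), Complex.ofReal_cos]

lemma sw_real (x : ℝ) : sw ((x : ℂ) ^ 2) = (Real.sin (th x) / th x : ℝ) := by
  have h0 : ((th x : ℝ) : ℂ) ≠ 0 := by exact_mod_cast (th_pos x).ne'
  rw [sw_eq (s := (th x : ℝ)) (by exact_mod_cast th_sq x), snc_ne h0]
  push_cast
  rfl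

lemma th_deriv (x : ℝ) : HasDerivAt th (x / th x) x := by
  have h1 : HasDerivAt (fun x : ℝ => x ^ 2 + a ^ 2) (2 * x) x := by
    simpa using (hasDerivAt_pow 2 x).add_const (a ^ 2)
  have h2 := h1.sqrt (by have := a_pos; positivity)
  refine h2.congr_deriv ?_
  have h3 := th_pos x
  unfold th at h3 ⊢
  field_simp

/-- the general form of an extremal function -/
theorem ext_form {F : ℂ → ℂ} (hF : Differentiable ℂ F) (hb : ∀ z, ‖F z‖ ≤ 1 * Real.exp |z.im|)
    (hU : U F = ((2 / Real.pi : ℝ) : ℂ)) :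
    ∃ α β : ℂ, ∀ z, F z = -cw (z ^ 2) + (α * z + β) * sw (z ^ 2) := by
  obtain ⟨β, hβ⟩ := ext_even hF hb hU
  obtain ⟨α, hα⟩ := ext_odd hF hb hU
  refine ⟨α, β, fun z => ?_⟩
  have h : F z = evp F z + odp F z := by
    simp only [evp, odp]
    ring
  rw [h, hβ, hα]
  ring

lemma form_re {F : ℂ → ℂ} {α β : ℂ} (hform : ∀ z, F z = -cw (z ^ 2) + (α * z + β) * sw (z ^ 2))
    (x : ℝ) : (F x).re = -Real.cos (th x) + (α.re * x + β.re) * (Real.sin (th x) / th x) := by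
  rw [hform, cw_real, sw_real]
  generalize Real.cos (th x) = c
  generalize Real.sin (th x) / th x = q
  simp [Complex.mul_re]

/-- the coefficients are imaginary -/
theorem re_zero {F : ℂ → ℂ} {α β : ℂ} (hb : ∀ x : ℝ, ‖F x‖ ≤ 1)
    (hform : ∀ z, F z = -cw (z ^ 2) + (α * z + β) * sw (z ^ 2)) : α.re = 0 ∧ β.re = 0 := by
  have hpi := Real.pi_pos
  have key : ∀ y : ℝ, y ^ 2 + a ^ 2 = Real.pi ^ 2 → y ≠ 0 → α.re * y + β.re = 0 := by
    intro y hy hy0
    have hth : th y = Real.pi := by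
      unfold th
      rw [hy, Real.sqrt_sq hpi.le]
    have hmax : IsLocalMax (fun x : ℝ => -Real.cos (th x) +
        (α.re * x + β.re) * (Real.sin (th x) / th x)) y := by
      refine Eventually.of_forall fun x => ?_
      show -Real.cos (th x) + (α.re * x + β.re) * (Real.sin (th x) / th x) ≤
        -Real.cos (th y) + (α.re * y + β.re) * (Real.sin (th y) / th y)
      rw [← form_re hform x, hth, Real.cos_pi, Real.sin_pi]
      have h1 := (Complex.re_le_norm (F x)).trans (hb x)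
      simpa using h1
    have h1 := th_deriv y
    have h2 : HasDerivAt (fun x : ℝ => Real.cos (th x)) (-Real.sin (th y) * (y / th y)) y :=
      (Real.hasDerivAt_cos (th y)).comp y h1
    have h3 : HasDerivAt (fun x : ℝ => Real.sin (th x)) (Real.cos (th y) * (y / th y)) y :=
      (Real.hasDerivAt_sin (th y)).comp y h1
    have h4 : HasDerivAt (fun x : ℝ => Real.sin (th x) / th x)
        ((Real.cos (th y) * (y / th y) * th y - Real.sin (th y) * (y / th y)) / th y ^ 2) y :=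
      h3.div h1 (th_pos y).ne'
    have h5 : HasDerivAt (fun x : ℝ => α.re * x + β.re) α.re y := by
      simpa using ((hasDerivAt_id y).const_mul α.re).add_const β.re
    have h6 : HasDerivAt (fun x : ℝ => -Real.cos (th x) +
        (α.re * x + β.re) * (Real.sin (th x) / th x))
        (-(-Real.sin (th y) * (y / th y)) + (α.re * (Real.sin (th y) / th y) + (α.re * y + β.re) *
          ((Real.cos (th y) * (y / th y) * th y - Real.sin (th y) * (y / th y)) / th y ^ 2))) y :=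
      h2.neg.add (h5.mul h4)
    have h7 := hmax.hasDerivAt_eq_zero h6
    rw [hth, Real.cos_pi, Real.sin_pi] at h7
    have h8 : (α.re * y + β.re) * (y / Real.pi ^ 2) = 0 := by
      have e : (α.re * y + β.re) * (y / Real.pi ^ 2) = -(-(-0 * (y / Real.pi)) +
        (α.re * (0 / Real.pi) + (α.re * y + β.re) *
          ((-1 * (y / Real.pi) * Real.pi - 0 * (y / Real.pi)) / Real.pi ^ 2))) := by
        field_simp
        ring
      rw [e, h7, neg_zero]
    rcases mul_eq_zero.1 h8 with h9 | h9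
    · exact h9
    · exfalso
      have : y / Real.pi ^ 2 ≠ 0 := div_ne_zero hy0 (by positivity)
      exact this h9
  have hpos : 0 < Real.pi ^ 2 - a ^ 2 := by
    have h1 := a_lt_pi
    have h2 := a_pos
    nlinarith
  set x1 : ℝ := √(Real.pi ^ 2 - a ^ 2) with hx1
  have hx1p : 0 < x1 := Real.sqrt_pos.2 hpos
  have hx1s : x1 ^ 2 = Real.pi ^ 2 - a ^ 2 := Real.sq_sqrt hpos.le
  have k1 := key x1 (by rw [hx1s]; ring) hx1p.ne'
  have k2 := key (-x1) (by rw [neg_sq, hx1s]; ring) (neg_ne_zero.2 hx1p.ne')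
  have hβ : β.re = 0 := by linarith
  have hα : α.re * x1 = 0 := by linarith
  exact ⟨(mul_eq_zero.1 hα).resolve_right hx1p.ne', hβ⟩

/-- the pointwise constraint -/
theorem constraint {α β : ℝ} (h : ∀ x : ℝ, Real.cos (th x) ^ 2 +
    ((α * x + β) * (Real.sin (th x) / th x)) ^ 2 ≤ 1) (x : ℝ) :
    (α * x + β) ^ 2 ≤ x ^ 2 + a ^ 2 := by
  have hgen : ∀ x : ℝ, Real.sin (th x) ≠ 0 → (α * x + β) ^ 2 ≤ x ^ 2 + a ^ 2 := by
    intro x hs
    have h1 := h x
    have h2 := Real.sin_sq_add_cos_sq (th x)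
    have h3 := th_pos x
    have h4 : ((α * x + β) * (Real.sin (th x) / th x)) ^ 2 ≤ Real.sin (th x) ^ 2 := by linarith
    have h5 : ((α * x + β) * (Real.sin (th x) / th x)) ^ 2
        = (α * x + β) ^ 2 * Real.sin (th x) ^ 2 / th x ^ 2 := by
      field_simp
    rw [h5, div_le_iff₀ (by positivity)] at h4
    have h6 : 0 < Real.sin (th x) ^ 2 := by positivity
    rw [← th_sq x]
    nlinarith
  by_cases hs : Real.sin (th x) = 0
  · have hx0 : x ≠ 0 := by
      rintro rfl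
      have : th 0 = a := by
        unfold th
        rw [zero_pow (by norm_num), zero_add, Real.sqrt_sq a_pos.le]
      rw [this, sin_aR] at hs
      norm_num at hs
    have hc : Real.cos (th x) ≠ 0 := by
      intro hc
      have := Real.sin_sq_add_cos_sq (th x)
      rw [hs, hc] at this
      norm_num at this
    have h3 : HasDerivAt (fun x : ℝ => Real.sin (th x)) (Real.cos (th x) * (x / th x)) x :=
      (Real.hasDerivAt_sin (th x)).comp x (th_deriv x)
    have h4 : Real.cos (th x) * (x / th x) ≠ 0 :=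
      mul_ne_zero hc (div_ne_zero hx0 (th_pos x).ne')
    have h5 := h3.eventually_ne h4 (c := 0)
    have c1 : Tendsto (fun y : ℝ => (α * y + β) ^ 2) (𝓝[≠] x) (𝓝 ((α * x + β) ^ 2)) :=
      (Continuous.tendsto (by fun_prop) x).mono_left nhdsWithin_le_nhds
    have c2 : Tendsto (fun y : ℝ => y ^ 2 + a ^ 2) (𝓝[≠] x) (𝓝 (x ^ 2 + a ^ 2)) :=
      (Continuous.tendsto (by fun_prop) x).mono_left nhdsWithin_le_nhds
    refine le_of_tendsto_of_tendsto c1 c2 ?_
    filter_upwards [h5] with y hy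
    exact hgen y hy
  · exact hgen x hs

/-- the constraint on the coefficients -/
theorem ellipse {α β : ℝ} (h : ∀ x : ℝ, (α * x + β) ^ 2 ≤ x ^ 2 + a ^ 2) :
    α ^ 2 + 4 / Real.pi ^ 2 * β ^ 2 ≤ 1 := by
  have hpi := Real.pi_pos
  have ha := a_pos
  have e : 4 / Real.pi ^ 2 * β ^ 2 = β ^ 2 / a ^ 2 := by
    unfold a
    field_simp
    norm_num
    ring
  rw [e]
  rcases eq_or_ne β 0 with rfl | hβ
  · by_contra hcon
    push Not at hcon
    have hd : 0 < α ^ 2 - 1 := by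
      have : (0:ℝ) ^ 2 / a ^ 2 = 0 := by simp
      linarith
    have h1 := h (a / (α ^ 2 - 1) + a)
    set d := α ^ 2 - 1 with hdd
    have h2 : α ^ 2 = d + 1 := by rw [hdd]; ring
    have h3 : (α * (a / d + a) + 0) ^ 2 = (d + 1) * (a / d + a) ^ 2 := by rw [← h2]; ring
    rw [h3] at h1
    have h4 : d * (a / d + a) ^ 2 = a ^ 2 * (1 / d + 2 + d) := by
      field_simp
      ring
    have h5 : 0 < 1 / d := by positivity
    have h6 : 0 < a ^ 2 := by positivity
    nlinarith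
  · have h1 := h (α * a ^ 2 / β)
    have hb2 : 0 < β ^ 2 := by positivity
    have e1 : (α * (α * a ^ 2 / β) + β) ^ 2 = (α ^ 2 * a ^ 2 + β ^ 2) ^ 2 / β ^ 2 := by
      field_simp
    have e2 : (α * a ^ 2 / β) ^ 2 + a ^ 2 = a ^ 2 * (α ^ 2 * a ^ 2 + β ^ 2) / β ^ 2 := by
      field_simp
    rw [e1, e2, div_le_div_iff_of_pos_right hb2] at h1
    have hQ : 0 < α ^ 2 * a ^ 2 + β ^ 2 := by positivity
    have h2 : α ^ 2 * a ^ 2 + β ^ 2 ≤ a ^ 2 := by
      by_contra hcon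
      push Not at hcon
      nlinarith
    have h3 : α ^ 2 + β ^ 2 / a ^ 2 = (α ^ 2 * a ^ 2 + β ^ 2) / a ^ 2 := by
      field_simp
    rw [h3, div_le_one (by positivity)]
    exact h2

/-- THE ONE-DIMENSIONAL EXTREMALS -/
theorem one {F : ℂ → ℂ} (hF : Differentiable ℂ F) (hb : ∀ z, ‖F z‖ ≤ Real.exp |z.im|)
    (hU : U F = ((2 / Real.pi : ℝ) : ℂ)) :
    ∃ α β : ℝ, α ^ 2 + 4 / Real.pi ^ 2 * β ^ 2 ≤ 1 ∧
      ∀ z, F z = -cw (z ^ 2) + I * (α * z + β) * sw (z ^ 2) := by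
  obtain ⟨α, β, hform⟩ := ext_form hF (fun z => by rw [one_mul]; exact hb z) hU
  have hb1 : ∀ x : ℝ, ‖F x‖ ≤ 1 := fun x => by simpa using hb x
  obtain ⟨h1, h2⟩ := re_zero hb1 hform
  have hα : α = I * (α.im : ℝ) := by
    apply Complex.ext <;> simp [h1]
  have hβ : β = I * (β.im : ℝ) := by
    apply Complex.ext <;> simp [h2]
  have hform' : ∀ z, F z = -cw (z ^ 2) + I * ((α.im : ℝ) * z + (β.im : ℝ)) * sw (z ^ 2) := by
    intro z
    rw [hform z]
    conv_lhs => rw [hα, hβ]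
    ring
  refine ⟨α.im, β.im, ellipse (constraint fun x => ?_), hform'⟩
  have h3 := hb1 x
  have h4 : ‖F x‖ ^ 2 ≤ 1 := by
    have := norm_nonneg (F x)
    nlinarith
  rw [hform', cw_real, sw_real, Complex.sq_norm, Complex.normSq_apply] at h4
  refine le_trans (le_of_eq ?_) h4
  generalize Real.cos (th x) = c
  generalize Real.sin (th x) / th x = q
  simp [Complex.mul_re, Complex.mul_im]
  ring

/-- two entire functions which agree on the reals -/
lemma eq_of_real {F G : ℂ → ℂ} (hF : Differentiable ℂ F) (hG : Differentiable ℂ G)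
    (h : ∀ x : ℝ, F x = G x) : F = G := by
  have hA : AnalyticOnNhd ℂ F univ := fun z _ => hF.analyticAt z
  have hB : AnalyticOnNhd ℂ G univ := fun z _ => hG.analyticAt z
  refine hA.eq_of_frequently_eq (z₀ := ((0 : ℝ) : ℂ)) hB ?_
  have ht : Tendsto (fun x : ℝ => (x : ℂ)) (𝓝[≠] 0) (𝓝[≠] ((0 : ℝ) : ℂ)) := by
    refine tendsto_nhdsWithin_of_tendsto_nhds_of_eventually_within _
      ((Complex.continuous_ofReal.tendsto 0).mono_left nhdsWithin_le_nhds) ?_
    filter_upwards [self_mem_nhdsWithin] with x hx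
    simpa using hx
  exact ht.frequently (Eventually.frequently (Eventually.of_forall h))

/-- the one-dimensional extremal functions -/
noncomputable def FX (α β : ℝ) (z : ℂ) : ℂ := -cw (z ^ 2) + I * (α * z + β) * sw (z ^ 2)

lemma FX_diff (α β : ℝ) : Differentiable ℂ (FX α β) := by
  have h1 : Differentiable ℂ (fun z : ℂ => cw (z ^ 2)) := cw_diff.comp (by fun_prop)
  have h2 : Differentiable ℂ (fun z : ℂ => sw (z ^ 2)) := sw_diff.comp (by fun_prop)
  have h3 : Differentiable ℂ (fun z : ℂ => I * ((α : ℂ) * z + β)) := by fun_prop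
  exact h1.neg.add (h3.mul h2)

lemma sw_zero : sw 0 = 1 / (a : ℂ) := by
  have h0 : (a : ℂ) ≠ 0 := by exact_mod_cast a_pos.ne'
  rw [sw_eq (s := (a : ℂ)) (by ring), snc_ne h0, sin_a]

/-- the value of the functional on them -/
theorem conv (α β : ℝ) : U (FX α β) = ((2 / Real.pi : ℝ) : ℂ) := by
  have ha0 : (a : ℂ) ≠ 0 := by exact_mod_cast a_pos.ne'
  have hev : evp (FX α β) = fun z => -cw (z ^ 2) + I * β * sw (z ^ 2) := by
    funext z
    simp only [evp, FX, neg_sq]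
    ring
  rw [← U_evp (FX_diff α β), hev]
  have hFE : ∀ b : ℝ, b = a ∨ b = -a → ∀ z : ℂ, FE b z = cw (z ^ 2) + I * b * sw (z ^ 2) := by
    intro b hb z
    have h1 : (b : ℂ) ^ 2 = (a : ℂ) ^ 2 := by
      rcases hb with rfl | rfl
      · rfl
      · push_cast
        ring
    unfold FE cw sw
    rw [h1]
  have hp : FE a = fun z => cw (z ^ 2) + I * a * sw (z ^ 2) := funext (hFE a (Or.inl rfl))
  have hm : FE (-a) = fun z => cw (z ^ 2) + I * (-a : ℝ) * sw (z ^ 2) :=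
    funext (hFE (-a) (Or.inr rfl))
  have dp := FE_deriv2 (b := a) a_pos.ne'
  have dm := FE_deriv2 (b := -a) (neg_ne_zero.2 a_pos.ne')
  have hd : ∀ b : ℝ, Differentiable ℂ (deriv (FE b)) := fun b => (FE_diff b).deriv
  have e : (fun z : ℂ => -cw (z ^ 2) + I * β * sw (z ^ 2))
      = fun z => ((-1 / 2 + β / (2 * a) : ℝ) : ℂ) * FE a z + ((-1 / 2 - β / (2 * a) : ℝ) : ℂ) * FE (-a) z := by
    funext z
    rw [hp, hm]
    push_cast
    field_simp
    ring
  have d1 : ∀ c1 c2 : ℂ, deriv (fun z => c1 * FE a z + c2 * FE (-a) z)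
      = fun z => c1 * deriv (FE a) z + c2 * deriv (FE (-a)) z := by
    intro c1 c2
    funext z
    exact (((FE_diff a z).hasDerivAt.const_mul c1).add
      ((FE_diff (-a) z).hasDerivAt.const_mul c2)).deriv
  have d2 : ∀ c1 c2 : ℂ, deriv (fun z => c1 * deriv (FE a) z + c2 * deriv (FE (-a)) z) 0
      = c1 * deriv (deriv (FE a)) 0 + c2 * deriv (deriv (FE (-a))) 0 := by
    intro c1 c2
    exact (((hd a 0).hasDerivAt.const_mul c1).add ((hd (-a) 0).hasDerivAt.const_mul c2)).deriv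
  unfold U
  rw [e, d1, d2, dp, dm]
  have v1 : FE a 0 = I := by
    rw [hp]
    simp only [ne_eq, OfNat.ofNat_ne_zero, not_false_eq_true, zero_pow]
    rw [cw_zero, sw_zero]
    field_simp
    ring
  have v2 : FE (-a) 0 = -I := by
    rw [hm]
    simp only [ne_eq, OfNat.ofNat_ne_zero, not_false_eq_true, zero_pow]
    rw [cw_zero, sw_zero]
    push_cast
    field_simp
    ring
  simp only [v1, v2]
  push_cast
  rw [Complex.sin_neg, Complex.cos_neg, sin_a, cos_a]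
  have hpa : (Real.pi : ℂ) = 2 * a := by
    unfold a
    push_cast
    ring
  rw [hpa]
  field_simp
  ring

end Pool.Agent.T9h65.EX
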