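import Pool.Agent.T9h72.EX.Spec
import Pool.Agent.T9h65.EX.One

/-! `S_ONE` of the project EX. -/

set_option autoImplicit false

open Complex Filter Topology Metric Set
open Pool.Agent.Helper797.Bs Pool.Agent.K7.H38.MD Pool.Agent.T9h72.EX

namespace Pool.Agent.T9h65.EX

lemma FX_real (α β s : ℝ) : FX α β s = ext1 α β s := by
  have h : th s = √(s ^ 2 + (Real.pi / 2) ^ 2) := rfl
  unfold FX ext1
  rw [cw_real, sw_real, ← h]
  push_cast
  ring

theorem sOne : S_ONE := by
  intro G hG hU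
  obtain ⟨α, β, h1, h2⟩ := one hG.1 (fun z => by simpa using hG.2 z) hU
  refine ⟨α, β, ?_, fun s => ?_⟩
  · refine le_trans (le_of_eq ?_) h1
    have hpi := Real.pi_pos
    field_simp
    ring
  · rw [← FX_real]
    exact h2 s

theorem sVal (α β : ℝ) :
    U (fun z => -cw (z ^ 2) + I * (α * z + β) * sw (z ^ 2)) = ((2 / Real.pi : ℝ) : ℂ) := conv α β

end Pool.Agent.T9h65.EX
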