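import Pool.Agent.T9h72.EX.Spec

/-! `S_INFB` of the project EX. -/

set_option autoImplicit false

open Complex Filter Topology Metric Set
open Pool.Agent.Helper797.Bs Pool.Agent.K7.H38.MD Pool.Agent.T9h72.EX

namespace Pool.Agent.T9h65.EX

lemma snc_real (t : ℝ) : snc (t : ℂ) = ((Real.sinc t : ℝ) : ℂ) := by
  rcases eq_or_ne t 0 with rfl | ht
  · rw [Complex.ofReal_zero, snc_zero, Real.sinc_zero, Complex.ofReal_one]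
  · have h : (t : ℂ) ≠ 0 := by exact_mod_cast ht
    rw [snc_ne h, Real.sinc_of_ne_zero ht]
    push_cast
    rfl

/-- the entire function `ev snc (l² w)` -/
noncomputable def Sl (l : ℝ) (w : ℂ) : ℂ := ev snc ((l : ℂ) ^ 2 * w)

lemma Sl_diff (l : ℝ) : Differentiable ℂ (Sl l) := evsnc_diff.comp (by fun_prop)

lemma Sl_real (l x y : ℝ) : Sl l ((x : ℂ) ^ 2 + (y : ℂ) ^ 2)
    = ((Real.sinc (l * √(x ^ 2 + y ^ 2)) : ℝ) : ℂ) := by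
  unfold Sl
  rw [← snc_real]
  refine ev_eq snc_neg ?_
  have h : (l * √(x ^ 2 + y ^ 2)) ^ 2 = l ^ 2 * (x ^ 2 + y ^ 2) := by
    rw [mul_pow, Real.sq_sqrt (by positivity)]
  exact_mod_cast h

lemma Sl_growth {l : ℝ} (hl : 0 < l) : ∃ K : ℝ, 0 ≤ K ∧ ∀ z1 z2 : ℂ,
    ‖Sl l (z1 ^ 2 + z2 ^ 2)‖ ≤ K * Real.exp (l * √(z1.im ^ 2 + z2.im ^ 2)) := by
  obtain ⟨K, hK, hb⟩ := snc_bound
  refine ⟨K, hK, fun z1 z2 => ?_⟩
  have h1 : Sl l (z1 ^ 2 + z2 ^ 2) = snc (Complex.sqrt ((l : ℂ) ^ 2 * (z1 ^ 2 + z2 ^ 2))) := rfl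
  rw [h1]
  refine (hb _).trans ?_
  apply mul_le_mul_of_nonneg_left _ hK
  apply Real.exp_le_exp.2
  have h2 := im_bound (z1 := (l : ℂ) * z1) (z2 := (l : ℂ) * z2) (b := 0)
    (s := Complex.sqrt ((l : ℂ) ^ 2 * (z1 ^ 2 + z2 ^ 2))) (by
      rw [sq_sqrt]
      push_cast
      ring)
  refine h2.trans (le_of_eq ?_)
  have e1 : ((l : ℂ) * z1).im = l * z1.im := by simp
  have e2 : ((l : ℂ) * z2).im = l * z2.im := by simp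
  rw [e1, e2, show (l * z1.im) ^ 2 + (l * z2.im) ^ 2 = l ^ 2 * (z1.im ^ 2 + z2.im ^ 2) by ring,
    Real.sqrt_mul (by positivity), Real.sqrt_sq hl.le]

theorem infb : S_INFB := by
  intro l hl hl4
  refine ⟨⟨1 / l ^ 4, fun p => ?_⟩, fun z : ℂ × ℂ => (z.1 ^ 2 - z.2 ^ 2) ^ 2 * (Sl l (z.1 ^ 2 + z.2 ^ 2)) ^ 4,
    ⟨?_, ?_⟩, fun x y => ?_⟩
  · rw [Complex.norm_real, Real.norm_eq_abs]
    unfold gl
    set r := √(p.1 ^ 2 + p.2 ^ 2) with hr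
    have hr2 : r ^ 2 = p.1 ^ 2 + p.2 ^ 2 := Real.sq_sqrt (by positivity)
    have hr0 : 0 ≤ r := Real.sqrt_nonneg _
    rcases eq_or_lt_of_le hr0 with h0 | h0
    · have hp : p.1 ^ 2 + p.2 ^ 2 = 0 := by rw [← hr2, ← h0]; ring
      have h1 : p.1 ^ 2 = 0 := by nlinarith [sq_nonneg p.1, sq_nonneg p.2]
      have h2 : p.2 ^ 2 = 0 := by nlinarith [sq_nonneg p.1, sq_nonneg p.2]
      rw [h1, h2]
      simp
      positivity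
    · have hlr : 0 < l * r := mul_pos hl h0
      rw [Real.sinc_of_ne_zero hlr.ne']
      have hs : Real.sin (l * r) ^ 2 ≤ 1 := Real.sin_sq_le_one _
      have hs4 : Real.sin (l * r) ^ 4 ≤ 1 := by nlinarith [sq_nonneg (Real.sin (l * r))]
      have hq : (p.1 ^ 2 - p.2 ^ 2) ^ 2 ≤ r ^ 4 := by
        have : r ^ 4 = (p.1 ^ 2 + p.2 ^ 2) ^ 2 := by rw [← hr2]; ring
        rw [this]
        nlinarith [mul_nonneg (sq_nonneg p.1) (sq_nonneg p.2)]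
      rw [abs_of_nonneg (by positivity), div_pow, mul_pow, ← mul_div_assoc,
        div_le_div_iff₀ (by positivity) (by positivity)]
      have h3 : (p.1 ^ 2 - p.2 ^ 2) ^ 2 * Real.sin (l * r) ^ 4 ≤ r ^ 4 * 1 := by
        gcongr
      have h4 : 0 < l ^ 4 := by positivity
      nlinarith
  · intro z hz
    have h1 := an_comp (Sl_diff l) z hz
    exact (((analyticAt_fst.pow 2).sub (analyticAt_snd.pow 2)).pow 2).mul (h1.pow 4)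
  · obtain ⟨K, hK, hb⟩ := Sl_growth hl
    intro ε hε
    refine ⟨96 / ε ^ 4 * K ^ 4, fun z => ?_⟩
    set R := √(z.1.im ^ 2 + z.2.im ^ 2) with hR
    have hR0 : 0 ≤ R := Real.sqrt_nonneg _
    have h1 := hb z.1 z.2
    rw [← hR] at h1
    have h2 : ‖Sl l (z.1 ^ 2 + z.2 ^ 2)‖ ^ 4 ≤ K ^ 4 * Real.exp R := by
      calc ‖Sl l (z.1 ^ 2 + z.2 ^ 2)‖ ^ 4 ≤ (K * Real.exp (l * R)) ^ 4 := by gcongr
        _ = K ^ 4 * Real.exp (4 * (l * R)) := by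
          rw [mul_pow, ← Real.exp_nat_mul]
          norm_num
        _ ≤ K ^ 4 * Real.exp R := by
          gcongr
          nlinarith
    have n1 : ‖z.1‖ ≤ ‖z‖ := norm_fst_le z
    have n2 : ‖z.2‖ ≤ ‖z‖ := norm_snd_le z
    have h3 : ‖z.1 ^ 2 - z.2 ^ 2‖ ≤ 2 * ‖z‖ ^ 2 := by
      calc ‖z.1 ^ 2 - z.2 ^ 2‖ ≤ ‖z.1 ^ 2‖ + ‖z.2 ^ 2‖ := norm_sub_le _ _
        _ = ‖z.1‖ ^ 2 + ‖z.2‖ ^ 2 := by rw [norm_pow, norm_pow]
        _ ≤ ‖z‖ ^ 2 + ‖z‖ ^ 2 := by gcongr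
        _ = 2 * ‖z‖ ^ 2 := by ring
    have h4 : ‖z.1 ^ 2 - z.2 ^ 2‖ ^ 2 ≤ 96 / ε ^ 4 * Real.exp (ε * ‖z‖) := by
      have h5 := Real.pow_div_factorial_le_exp (ε * ‖z‖) (by positivity) 4
      have h6 : ((Nat.factorial 4 : ℕ) : ℝ) = 24 := by norm_num [Nat.factorial]
      rw [h6, div_le_iff₀ (by norm_num)] at h5
      calc ‖z.1 ^ 2 - z.2 ^ 2‖ ^ 2 ≤ (2 * ‖z‖ ^ 2) ^ 2 := by gcongr
        _ = 4 / ε ^ 4 * (ε * ‖z‖) ^ 4 := by field_simp; ring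
        _ ≤ 4 / ε ^ 4 * (Real.exp (ε * ‖z‖) * 24) := by gcongr
        _ = 96 / ε ^ 4 * Real.exp (ε * ‖z‖) := by ring
    show ‖(z.1 ^ 2 - z.2 ^ 2) ^ 2 * (Sl l (z.1 ^ 2 + z.2 ^ 2)) ^ 4‖ ≤ _
    rw [norm_mul, norm_pow, norm_pow, Real.exp_add]
    calc ‖z.1 ^ 2 - z.2 ^ 2‖ ^ 2 * ‖Sl l (z.1 ^ 2 + z.2 ^ 2)‖ ^ 4
        ≤ (96 / ε ^ 4 * Real.exp (ε * ‖z‖)) * (K ^ 4 * Real.exp R) := by gcongr
      _ = 96 / ε ^ 4 * K ^ 4 * (Real.exp R * Real.exp (ε * ‖z‖)) := by ring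
  · show ((gl l (x, y) : ℝ) : ℂ) = ((x : ℂ) ^ 2 - (y : ℂ) ^ 2) ^ 2 * (Sl l ((x : ℂ) ^ 2 + (y : ℂ) ^ 2)) ^ 4
    rw [Sl_real]
    unfold gl
    push_cast
    ring

end Pool.Agent.T9h65.EX
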