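import Pool.Agent.T9h65.EX.Fam
import Pool.Agent.T9h94.EX.Two2
import Pool.Agent.T9h41.EX.Infn
import Pool.Agent.T9h41.EX.Infb

/-! Assembly of the project EX. -/

set_option autoImplicit false

open Complex Filter Topology Metric Set
open Pool.Agent.Helper797.Bs Pool.Agent.K7.H38.MD Pool.Agent.T9h72.EX

namespace Pool.Agent.T9h65.EX

theorem main : S_MAIN := by
  refine ⟨fun f => ⟨fun ⟨h1, h2, h3⟩ => ⟨h1, h2, Pool.Agent.T9h94.EX2.two sOne f h1 h2 h3⟩, ?_⟩, ?_⟩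
  · rintro ⟨h1, h2, α, α', β, -, -, h5, h6⟩
    exact ⟨h1, h2, Pool.Agent.T9h94.EX2.conv' f h1 α α' β h5 h6⟩
  · intro l c hl hl4 hc
    have hmem : (fun p => fs p + ((c * gl l p : ℝ) : ℂ)) ∈ B := by
      have h := Pool.Agent.T9h41.EX.add fs fs_mem _ (Pool.Agent.T9h41.EX.infb l hl hl4) (c : ℂ)
      have e : (fun p => fs p + ((c * gl l p : ℝ) : ℂ)) = fun p => fs p + (c : ℂ) * ((gl l p : ℝ) : ℂ) := by
        funext p
        push_cast
        ring
      rw [e]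
      exact h
    refine ⟨hmem, Pool.Agent.T9h41.EX.infn l c hl hc,
      Pool.Agent.T9h94.EX2.conv' _ hmem 0 0 0 (fun s => ?_) (fun s => ?_)⟩
    · have h := Pool.Agent.T9h41.EX.infr s
      show fs (s / √2, s / √2) + ((c * gl l (s / √2, s / √2) : ℝ) : ℂ) = ext1 0 0 s
      rw [(h.1 l).1, h.2.1]
      simp
    · have h := Pool.Agent.T9h41.EX.infr s
      show fs (s / √2, -(s / √2)) + ((c * gl l (s / √2, -(s / √2)) : ℝ) : ℂ) = -ext1 0 (-0) s
      rw [(h.1 l).2, h.2.2]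
      simp

end Pool.Agent.T9h65.EX
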